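import Pool.Agent.N542.PQ.TypeII

set_option autoImplicit false
set_option maxHeartbeats 4000000

/-! Bilinear sums over arbitrary sets. -/

namespace Pool.Agent.N542.PB

open Finset
open Pool.Agent.H469R2.NK (e norm_e e_add conj_e norm_sum_neg e_zero)
open Pool.Agent.H373R2.T3 (bilin)
open Pool.Agent.TH915.PW (Hy)
open Pool.Agent.N542.PQ (PD Blk hyII)

/-- adding a polynomial of low degree -/
lemma hy_poly {k : ℕ} {A B lo hi : ℝ} {φ : ℕ → ℝ → ℝ} (h : Hy k A B lo hi φ)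
    (P : Polynomial ℝ) (hP : P.natDegree ≤ k) :
    Hy k A B lo hi (fun j x => φ j x + (Polynomial.derivative^[j] P).eval x) := by
  have hz : ∀ j, k + 1 ≤ j → ∀ x : ℝ, (Polynomial.derivative^[j] P).eval x = 0 := by
    intro j hj x
    rw [Polynomial.iterate_derivative_eq_zero (by omega), Polynomial.eval_zero]
  constructor
  · intro m hm t ht
    have h4 := (h.der m hm t ht).add ((Polynomial.derivative^[m] P).hasDerivAt t)
    rw [← Function.iterate_succ_apply' Polynomial.derivative m P] at h4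
    exact h4
  · intro t ht
    rw [hz _ le_rfl, add_zero]
    exact h.lo t ht
  · intro t ht
    rw [hz _ le_rfl, add_zero]
    exact h.hi t ht
  · intro t ht
    rw [hz _ (by omega), add_zero]
    exact h.dec t ht

/-- the number of points near `l` -/
lemma near_card (T : Finset ℕ) (l : ℕ) (ρ : ℝ) (hρ : 0 ≤ ρ) :
    (((T.filter (fun l' : ℕ => |(l : ℝ) - l'| < ρ)).card : ℕ) : ℝ) ≤ 2 * ρ + 1 := by
  have hsub : T.filter (fun l' : ℕ => |(l : ℝ) - l'| < ρ) ⊆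
      Icc (l - ⌊ρ⌋₊) (l + ⌊ρ⌋₊) := by
    intro l' hl'
    rw [mem_filter] at hl'
    obtain ⟨h1, h2⟩ := abs_lt.mp hl'.2
    rw [mem_Icc]
    constructor
    · rw [Nat.sub_le_iff_le_add]
      by_contra hc
      rw [not_le] at hc
      have h3 : ((l - l' : ℕ) : ℝ) ≤ ρ := by
        rw [Nat.cast_sub (by omega)]
        linarith
      have h4 : l - l' ≤ ⌊ρ⌋₊ := Nat.le_floor h3
      omega
    · by_contra hc
      rw [not_le] at hc
      have h3 : ((l' - l : ℕ) : ℝ) ≤ ρ := by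
        rw [Nat.cast_sub (by omega)]
        linarith
      have h4 : l' - l ≤ ⌊ρ⌋₊ := Nat.le_floor h3
      omega
  have h1 := card_le_card hsub
  rw [Nat.card_Icc] at h1
  have h2 : ((⌊ρ⌋₊ : ℕ) : ℝ) ≤ ρ := Nat.floor_le hρ
  have h3 : (T.filter (fun l' : ℕ => |(l : ℝ) - l'| < ρ)).card ≤ 2 * ⌊ρ⌋₊ + 1 := by
    omega
  have h4 : (((T.filter (fun l' : ℕ => |(l : ℝ) - l'| < ρ)).card : ℕ) : ℝ) ≤
      2 * (⌊ρ⌋₊ : ℝ) + 1 := by exact_mod_cast h3
  linarith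

/-- The bilinear bound: `g m l = e (ψ l m)`; the sums over `m` of `g m l * conj (g m l')` are small
if `l` and `l'` are far from each other. -/
theorem bil_abs (M : ℕ) (S T : Finset ℕ) (hS : S ⊆ Ico M (2 * M)) (v : ℕ → ℂ)
    (hv : ∀ m, ‖v m‖ ≤ 1) (ψ : ℕ → ℕ → ℝ) (ρ E : ℝ) (hρ : 0 ≤ ρ) (hE : 0 ≤ E)
    (hfar : ∀ l ∈ T, ∀ l' ∈ T, l' < l → ρ ≤ (l : ℝ) - l' →
      ‖∑ m ∈ Ico M (2 * M), e (ψ l m - ψ l' m)‖ ≤ E) (hρ1 : 0 < ρ) :
    ‖∑ m ∈ S, v m * ∑ l ∈ T, e (ψ l m)‖ ^ 2 ≤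
      S.card * (T.card * ((2 * ρ + 1) * M + T.card * E)) := by
  classical
  set a : ℕ → ℂ := fun m => if m ∈ S then v m else 0 with ha
  set g : ℕ → ℕ → ℂ := fun m l => e (ψ l m) with hg
  have hgg : ∀ m l l', g m l * (starRingEnd ℂ) (g m l') = e (ψ l m - ψ l' m) := by
    intro m l l'
    simp only [hg]
    rw [conj_e, ← e_add, sub_eq_add_neg]
  have htriv : ∀ l l', ‖∑ m ∈ Ico M (2 * M), g m l * (starRingEnd ℂ) (g m l')‖ ≤ M := by
    intro l l'
    refine (norm_sum_le _ _).trans ?_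
    simp only [hgg, norm_e, sum_const, Nat.card_Ico, nsmul_eq_mul, mul_one]
    exact_mod_cast (by omega : 2 * M - M ≤ M)
  set Tt : ℝ := (2 * ρ + 1) * M + T.card * E with hTt
  have hTj : ∀ l ∈ T, ∑ l' ∈ T,
      ‖∑ m ∈ Ico M (2 * M), g m l * (starRingEnd ℂ) (g m l')‖ ≤ Tt := by
    intro l hl
    have hoff : ∀ l' ∈ T.filter (fun l' : ℕ => ¬ |(l : ℝ) - l'| < ρ),
        ‖∑ m ∈ Ico M (2 * M), g m l * (starRingEnd ℂ) (g m l')‖ ≤ E := by
      intro l' hl'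
      rw [mem_filter, not_lt] at hl'
      have hne : l ≠ l' := by
        intro h1
        rw [h1, sub_self, abs_zero] at hl'
        linarith [hl'.2]
      rcases lt_or_gt_of_ne hne with h1 | h1
      · have h1r : (l : ℝ) < l' := by exact_mod_cast h1
        have h2 := hl'.2
        rw [abs_sub_comm, abs_of_pos (by linarith)] at h2
        have h3 := hfar l' hl'.1 l hl h1 h2
        have h4 : ∑ m ∈ Ico M (2 * M), g m l * (starRingEnd ℂ) (g m l') =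
            (starRingEnd ℂ) (∑ m ∈ Ico M (2 * M), e (ψ l' m - ψ l m)) := by
          rw [map_sum]
          refine sum_congr rfl fun m _ => ?_
          rw [hgg, conj_e]
          congr 1
          ring
        rw [h4, Complex.norm_conj]
        exact h3
      · have h1r : (l' : ℝ) < l := by exact_mod_cast h1
        have h2 := hl'.2
        rw [abs_of_pos (by linarith)] at h2
        simp only [hgg]
        exact hfar l hl l' hl'.1 h1 h2
    rw [← sum_filter_add_sum_filter_not T (fun l' : ℕ => |(l : ℝ) - l'| < ρ)]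
    have hnear := near_card T l ρ hρ
    have hfarc : (((T.filter (fun l' : ℕ => ¬ |(l : ℝ) - l'| < ρ)).card : ℕ) : ℝ)
        ≤ T.card := by exact_mod_cast card_le_card (filter_subset _ _)
    have s1 : ∑ l' ∈ T.filter (fun l' : ℕ => |(l : ℝ) - l'| < ρ),
        ‖∑ m ∈ Ico M (2 * M), g m l * (starRingEnd ℂ) (g m l')‖ ≤ (2 * ρ + 1) * M := by
      calc _ ≤ ∑ _l' ∈ T.filter (fun l' : ℕ => |(l : ℝ) - l'| < ρ), (M : ℝ) :=
            sum_le_sum fun l' _ => htriv l l'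
        _ = ((T.filter (fun l' : ℕ => |(l : ℝ) - l'| < ρ)).card : ℝ) * M := by
            rw [sum_const, nsmul_eq_mul]
        _ ≤ _ := by gcongr
    have s2 : ∑ l' ∈ T.filter (fun l' : ℕ => ¬ |(l : ℝ) - l'| < ρ),
        ‖∑ m ∈ Ico M (2 * M), g m l * (starRingEnd ℂ) (g m l')‖ ≤ T.card * E := by
      calc _ ≤ ∑ _l' ∈ T.filter (fun l' : ℕ => ¬ |(l : ℝ) - l'| < ρ), E := sum_le_sum hoff
        _ = ((T.filter (fun l' : ℕ => ¬ |(l : ℝ) - l'| < ρ)).card : ℝ) * E := by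
            rw [sum_const, nsmul_eq_mul]
        _ ≤ _ := by gcongr
    rw [hTt]
    linarith
  have hb := bilin (Ico M (2 * M)) T a (fun _ => 1) g Tt hTj
  have e1 : ∑ m ∈ Ico M (2 * M), ∑ l ∈ T, a m * 1 * g m l =
      ∑ m ∈ S, v m * ∑ l ∈ T, e (ψ l m) := by
    rw [← sum_subset hS]
    · refine sum_congr rfl fun m hm => ?_
      rw [mul_sum]
      refine sum_congr rfl fun l _ => ?_
      simp only [ha, hg, if_pos hm, mul_one]
    · intro m _ hm
      apply sum_eq_zero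
      intro l _
      simp only [ha, if_neg hm, zero_mul]
  rw [e1] at hb
  refine hb.trans ?_
  have h1 : ∑ m ∈ Ico M (2 * M), ‖a m‖ ^ 2 ≤ S.card := by
    rw [← sum_subset hS]
    · calc ∑ m ∈ S, ‖a m‖ ^ 2 ≤ ∑ _m ∈ S, (1 : ℝ) := by
            apply sum_le_sum
            intro m hm
            simp only [ha, if_pos hm]
            exact pow_le_one₀ (norm_nonneg _) (hv m)
        _ = _ := by rw [sum_const, nsmul_eq_mul, mul_one]
    · intro m _ hm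
      simp only [ha, if_neg hm, norm_zero]
      norm_num
  have h2 : ∑ l ∈ T, ‖(fun _ => 1 : ℕ → ℂ) l‖ ^ 2 = T.card := by
    simp
  rw [h2]
  have hTt0 : 0 ≤ Tt := by positivity
  gcongr

variable {Q : ℕ} {Φ c₁ c₂ σ τ δ η C : ℝ} {G : ℕ → ℝ → ℝ}

/-- products -/
theorem bil_mul (M L : ℕ) (h : PD Q ((M : ℝ) * L) Φ c₁ c₂ σ τ G) (hM : 1 ≤ M) (hL : 1 ≤ L)
    (hτ : τ = 1 ∨ τ = -1) (hc₁ : 0 < c₁) (hc₂ : c₁ ≤ c₂) (hΦ : 0 < Φ) (hC : 1 ≤ C)
    (hblk : Blk Q (c₁ / (2 * 3 ^ (Q + 1))) c₂ δ η C) (w : ℝ) (hw : 0 ≤ w)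
    (hcond : Φ ≤ (M : ℝ) ^ Q) (hfar : (M : ℝ) ^ δ ≤ Φ * w)
    (S T : Finset ℕ) (hS : S ⊆ Ico M (2 * M)) (hT : T ⊆ Icc L (2 * L))
    (v : ℕ → ℂ) (hv : ∀ m, ‖v m‖ ≤ 1) (R : ℕ → Polynomial ℝ) (hR : ∀ l, (R l).natDegree ≤ Q) :
    ‖∑ m ∈ S, v m * ∑ l ∈ T, e (G 0 ((m : ℝ) * l) + (R l).eval (m : ℝ))‖ ^ 2 ≤
      S.card * (T.card * ((2 * (L * w) + 1) * M + T.card * (C * (M : ℝ) ^ (1 - η)))) := by
  have hM0 : (1 : ℝ) ≤ M := by exact_mod_cast hM
  have hL0 : (0 : ℝ) < L := by exact_mod_cast hL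
  have hw0 : 0 < w := by
    rcases hw.lt_or_eq with h1 | h1
    · exact h1
    · rw [← h1, mul_zero] at hfar
      have : 0 < (M : ℝ) ^ δ := by positivity
      linarith
  apply bil_abs M S T hS v hv (fun l m => G 0 ((m : ℝ) * l) + (R l).eval (m : ℝ)) (L * w)
    (C * (M : ℝ) ^ (1 - η)) (by positivity) (by positivity) _ (by positivity)
  intro l hl l' hl' hll hdist
  have hlm := mem_Icc.1 (hT hl)
  have hlm' := mem_Icc.1 (hT hl')
  have hllr : (l' : ℝ) < l := by exact_mod_cast hll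
  set D : ℝ := ((l : ℝ) - l') / L with hD
  have hwD : w ≤ D := by
    rw [hD, le_div_iff₀ hL0]
    linarith
  have hD0 : 0 < D := lt_of_lt_of_le hw0 hwD
  have hD1 : D ≤ 1 := by
    rw [hD, div_le_one hL0]
    have h1 : (l : ℝ) ≤ 2 * L := by exact_mod_cast hlm.2
    have h2 : (L : ℝ) ≤ l' := by exact_mod_cast hlm'.1
    linarith
  have hl2 : (l : ℝ) ≤ 2 * L := by exact_mod_cast hlm.2
  have hl1 : (L : ℝ) ≤ l' := by exact_mod_cast hlm'.1
  have hP := hyII h (by positivity) hc₁ hc₂ hΦ M (M : ℝ) ((M : ℝ) + (M : ℕ)) L l l'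
    (by linarith) le_rfl (by linarith) (by linarith) hL hlm.2 hlm'.1 hll
    (by rw [mul_comm]; gcongr)
    (by
      calc (l : ℝ) * (M + (M : ℕ)) ≤ (2 * L) * (M + (M : ℕ)) := by gcongr
        _ = _ := by ring)
  have hP2 := hy_poly hP (Polynomial.C τ * (R l - R l')) (by
    refine (Polynomial.natDegree_C_mul_le _ _).trans ?_
    exact (Polynomial.natDegree_sub_le _ _).trans (max_le (hR l) (hR l')))
  have hτ2 : ∀ (j : ℕ) (x : ℝ), (Polynomial.derivative^[j] (Polynomial.C τ * (R l - R l'))).eval x =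
      τ * (Polynomial.derivative^[j] (R l - R l')).eval x := by
    intro j x
    rw [← Polynomial.smul_eq_C_mul, Polynomial.iterate_derivative_smul, Polynomial.eval_smul,
      smul_eq_mul]
  have hP3 : Hy Q (M : ℝ) ((M : ℝ) + (M : ℕ))
      (c₁ / (2 * 3 ^ (Q + 1)) * (Φ * D) / (M : ℝ) ^ (Q + 1)) (c₂ * (Φ * D) / (M : ℝ) ^ (Q + 1))
      (fun j x => τ * ((l : ℝ) ^ j * G j (l * x) - (l' : ℝ) ^ j * G j (l' * x) +
        (Polynomial.derivative^[j] (R l - R l')).eval x)) := by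
    have e1 : (fun (j : ℕ) (x : ℝ) => τ * ((l : ℝ) ^ j * G j (l * x) - (l' : ℝ) ^ j * G j (l' * x) +
        (Polynomial.derivative^[j] (R l - R l')).eval x)) = (fun (j : ℕ) (x : ℝ) =>
        τ * ((l : ℝ) ^ j * G j (l * x) - (l' : ℝ) ^ j * G j (l' * x)) +
        (Polynomial.derivative^[j] (Polynomial.C τ * (R l - R l'))).eval x) := by
      funext j x
      rw [hτ2]
      ring
    rw [e1]
    exact hP2
  have h1 := hblk M M (M : ℝ) (Φ * D) τ _ hM le_rfl (hfar.trans (by gcongr)) (by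
      calc Φ * D ≤ Φ * 1 := by gcongr
        _ ≤ _ := by rw [mul_one]; exact hcond) hτ hP3
  refine le_trans (le_of_eq ?_) h1
  congr 1
  rw [Finset.sum_Ico_eq_sum_range, show 2 * M - M = M by omega]
  refine sum_congr rfl fun n _ => ?_
  simp only [pow_zero, one_mul, Function.iterate_zero, id, Polynomial.eval_sub]
  congr 1
  push_cast
  rw [mul_comm ((M : ℝ) + n) (l : ℝ), mul_comm ((M : ℝ) + n) (l' : ℝ)]
  ring

/-- sums -/
theorem bil_add (M : ℕ) (h : PD (Q + 1) (M : ℝ) Φ c₁ c₂ σ τ G) (hM : 1 ≤ M)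
    (hσ : σ = 1 ∨ σ = -1) (hc₁ : 0 < c₁) (hc₂ : c₁ ≤ c₂) (hΦ : 0 < Φ) (hC : 1 ≤ C)
    (hblk : Blk Q (c₁ / 4 ^ (Q + 2)) c₂ δ η C) (w : ℝ) (hw : 0 ≤ w)
    (hcond : 2 * Φ ≤ (M : ℝ) ^ Q) (hfar : (M : ℝ) ^ δ ≤ Φ * w)
    (S T : Finset ℕ) (hS : S ⊆ Ico M (2 * M)) (hT : T ⊆ Icc 0 (2 * M))
    (v : ℕ → ℂ) (hv : ∀ m, ‖v m‖ ≤ 1) (R : ℕ → Polynomial ℝ) (hR : ∀ l, (R l).natDegree ≤ Q) :
    ‖∑ m ∈ S, v m * ∑ l ∈ T, e (G 0 ((m : ℝ) + l) + (R l).eval (m : ℝ))‖ ^ 2 ≤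
      S.card * (T.card * ((2 * (M * w) + 1) * M + T.card * (C * (M : ℝ) ^ (1 - η)))) := by
  have hM0 : (1 : ℝ) ≤ M := by exact_mod_cast hM
  have hMp : (0 : ℝ) < M := by linarith
  have hw0 : 0 < w := by
    rcases hw.lt_or_eq with h1 | h1
    · exact h1
    · rw [← h1, mul_zero] at hfar
      have : 0 < (M : ℝ) ^ δ := by positivity
      linarith
  apply bil_abs M S T hS v hv (fun l m => G 0 ((m : ℝ) + l) + (R l).eval (m : ℝ)) (M * w)
    (C * (M : ℝ) ^ (1 - η)) (by positivity) (by positivity) _ (by positivity)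
  intro l hl l' hl' hll hdist
  have hlm := mem_Icc.1 (hT hl)
  have hlm' := mem_Icc.1 (hT hl')
  have hllr : (l' : ℝ) < l := by exact_mod_cast hll
  have hd : 0 < (l : ℝ) - l' := by linarith
  have hl0' : (0 : ℝ) ≤ l' := Nat.cast_nonneg _
  set D : ℝ := ((l : ℝ) - l') / M with hD
  have hwD : w ≤ D := by
    rw [hD, le_div_iff₀ hMp]
    linarith
  have hD0 : 0 < D := lt_of_lt_of_le hw0 hwD
  have hl2 : (l : ℝ) ≤ 2 * M := by exact_mod_cast hlm.2
  have hD2 : D ≤ 2 := by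
    rw [hD, div_le_iff₀ hMp]
    linarith
  -- the phase
  set ψ : ℕ → ℝ → ℝ := fun j x => G j (x + l) - G j (x + l') with hψ
  have hin : ∀ x ∈ Set.Icc (M : ℝ) ((M : ℝ) + (M : ℕ)), ∀ y : ℝ, x + l' ≤ y → y ≤ x + l →
      (M : ℝ) ≤ y ∧ y ≤ 4 * M := by
    intro x hx y h1 h2
    exact ⟨by linarith [hx.1], by linarith [hx.2]⟩
  have hmv : ∀ x ∈ Set.Icc (M : ℝ) ((M : ℝ) + (M : ℕ)), ∀ j ≤ Q + 3, ∃ ξ : ℝ, (M : ℝ) ≤ ξ ∧
      ξ ≤ 4 * M ∧ ψ j x = ((l : ℝ) - l') * G (j + 1) ξ := by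
    intro x hx j hj
    have hlt : x + (l' : ℝ) < x + l := by linarith
    have hder : ∀ y ∈ Set.Icc (x + (l' : ℝ)) (x + l), HasDerivAt (G j) (G (j + 1) y) y := by
      intro y hy
      obtain ⟨g1, g2⟩ := hin x hx y hy.1 hy.2
      exact h.der j (by omega) y g1 g2
    obtain ⟨ξ, hξ, hξ2⟩ := exists_hasDerivAt_eq_slope (G j) _ hlt
      (fun y hy => (hder y hy).continuousAt.continuousWithinAt)
      (fun y hy => hder y ⟨hy.1.le, hy.2.le⟩)
    obtain ⟨g1, g2⟩ := hin x hx ξ hξ.1.le hξ.2.le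
    refine ⟨ξ, g1, g2, ?_⟩
    rw [hξ2, hψ]
    have e1 : x + (l : ℝ) - (x + l') = l - l' := by ring
    rw [e1]
    field_simp
  have hcΦ : 0 < c₁ * Φ := by positivity
  have hc₂0 : 0 < c₂ := by linarith
  have hP : Hy Q (M : ℝ) ((M : ℝ) + (M : ℕ)) (c₁ / 4 ^ (Q + 2) * (Φ * D) / (M : ℝ) ^ (Q + 1))
      (c₂ * (Φ * D) / (M : ℝ) ^ (Q + 1)) (fun j x => σ * ψ j x) := by
    constructor
    · intro j hj x hx
      have h1 : HasDerivAt (fun x : ℝ => x + (l : ℝ)) 1 x := (hasDerivAt_id x).add_const _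
      have h2 : HasDerivAt (fun x : ℝ => x + (l' : ℝ)) 1 x := (hasDerivAt_id x).add_const _
      obtain ⟨g1, g2⟩ := hin x hx (x + l) (by linarith) le_rfl
      obtain ⟨g3, g4⟩ := hin x hx (x + l') le_rfl (by linarith)
      have h3 := (h.der j (by omega) (x + l) g1 g2).comp x h1
      have h4 := (h.der j (by omega) (x + l') g3 g4).comp x h2
      rw [mul_one] at h3 h4
      exact (h3.sub h4).const_mul σ
    · intro x hx
      obtain ⟨ξ, g1, g2, g3⟩ := hmv x hx (Q + 1) (by omega)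
      rw [g3]
      have hξ0 : 0 < ξ := by linarith
      have hb := (h.b1 ξ g1 g2).1
      have hξp : ξ ^ (Q + 2) ≤ 4 ^ (Q + 2) * (M : ℝ) ^ (Q + 2) := by
        rw [← mul_pow]
        exact pow_le_pow_left₀ hξ0.le g2 _
      have e1 : c₁ / 4 ^ (Q + 2) * (Φ * D) / (M : ℝ) ^ (Q + 1) =
          ((l : ℝ) - l') * (c₁ * Φ / (4 ^ (Q + 2) * (M : ℝ) ^ (Q + 2))) := by
        rw [hD, pow_succ (M : ℝ) (Q + 1)]
        field_simp
      have e2 : σ * (((l : ℝ) - l') * G (Q + 1 + 1) ξ) =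
          ((l : ℝ) - l') * (σ * (ξ ^ (Q + 1 + 1) * G (Q + 1 + 1) ξ) / ξ ^ (Q + 2)) := by
        field_simp
      rw [e1, e2]
      apply mul_le_mul_of_nonneg_left _ hd.le
      calc c₁ * Φ / (4 ^ (Q + 2) * (M : ℝ) ^ (Q + 2)) ≤ c₁ * Φ / ξ ^ (Q + 2) := by gcongr
        _ ≤ _ := by gcongr
    · intro x hx
      obtain ⟨ξ, g1, g2, g3⟩ := hmv x hx (Q + 1) (by omega)
      rw [g3]
      have hξ0 : 0 < ξ := by linarith
      have hb := (h.b1 ξ g1 g2).2
      have hξp : (M : ℝ) ^ (Q + 2) ≤ ξ ^ (Q + 2) := pow_le_pow_left₀ hMp.le g1 _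
      have e1 : c₂ * (Φ * D) / (M : ℝ) ^ (Q + 1) =
          ((l : ℝ) - l') * (c₂ * Φ / (M : ℝ) ^ (Q + 2)) := by
        rw [hD, pow_succ (M : ℝ) (Q + 1)]
        field_simp
      have e2 : σ * (((l : ℝ) - l') * G (Q + 1 + 1) ξ) =
          ((l : ℝ) - l') * (σ * (ξ ^ (Q + 1 + 1) * G (Q + 1 + 1) ξ) / ξ ^ (Q + 2)) := by
        field_simp
      rw [e1, e2]
      apply mul_le_mul_of_nonneg_left _ hd.le
      calc _ ≤ c₂ * Φ / ξ ^ (Q + 2) := by gcongr
        _ ≤ _ := by gcongr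
    · intro x hx
      obtain ⟨ξ, g1, g2, g3⟩ := hmv x hx (Q + 2) (by omega)
      rw [g3]
      have hξ0 : 0 < ξ := by linarith
      have hb := h.b3 ξ g1 g2
      have e2 : σ * (((l : ℝ) - l') * G (Q + 2 + 1) ξ) =
          ((l : ℝ) - l') * (σ * (ξ ^ (Q + 1 + 2) * G (Q + 1 + 2) ξ) / ξ ^ (Q + 3)) := by
        field_simp
      rw [e2]
      exact mul_nonpos_of_nonneg_of_nonpos hd.le (div_nonpos_of_nonpos_of_nonneg hb (by positivity))
  have hP2 := hy_poly hP (Polynomial.C σ * (R l - R l')) (by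
    refine (Polynomial.natDegree_C_mul_le _ _).trans ?_
    exact (Polynomial.natDegree_sub_le _ _).trans (max_le (hR l) (hR l')))
  have hτ2 : ∀ (j : ℕ) (x : ℝ), (Polynomial.derivative^[j] (Polynomial.C σ * (R l - R l'))).eval x =
      σ * (Polynomial.derivative^[j] (R l - R l')).eval x := by
    intro j x
    rw [← Polynomial.smul_eq_C_mul, Polynomial.iterate_derivative_smul, Polynomial.eval_smul,
      smul_eq_mul]
  have hP3 : Hy Q (M : ℝ) ((M : ℝ) + (M : ℕ))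
      (c₁ / 4 ^ (Q + 2) * (Φ * D) / (M : ℝ) ^ (Q + 1)) (c₂ * (Φ * D) / (M : ℝ) ^ (Q + 1))
      (fun j x => σ * (ψ j x + (Polynomial.derivative^[j] (R l - R l')).eval x)) := by
    have e1 : (fun (j : ℕ) (x : ℝ) => σ * (ψ j x +
        (Polynomial.derivative^[j] (R l - R l')).eval x)) = (fun (j : ℕ) (x : ℝ) => σ * ψ j x +
        (Polynomial.derivative^[j] (Polynomial.C σ * (R l - R l'))).eval x) := by
      funext j x
      rw [hτ2]
      ring
    rw [e1]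
    exact hP2
  have h1 := hblk M M (M : ℝ) (Φ * D) σ _ hM le_rfl (hfar.trans (by gcongr)) (by
      calc Φ * D ≤ Φ * 2 := by gcongr
        _ ≤ _ := by rw [mul_comm]; exact hcond) hσ hP3
  refine le_trans (le_of_eq ?_) h1
  congr 1
  rw [Finset.sum_Ico_eq_sum_range, show 2 * M - M = M by omega]
  refine sum_congr rfl fun n _ => ?_
  simp only [hψ, Function.iterate_zero, id, Polynomial.eval_sub]
  congr 1
  push_cast
  ring

end Pool.Agent.N542.PB
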