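import Pool.Agent.N542.PQ.Assembly

set_option autoImplicit false
set_option maxHeartbeats 4000000

/-! The phases `∑ θ j * F j` at the scale `N`. -/

namespace Pool.Agent.N542.PB

open Finset Filter Topology
open Pool.Agent.N542.PP (SV)
open Pool.Agent.W147.PS (ev_pow)
open Pool.Agent.N542.PQ (PD HB hb_exists pd_sum GG power_bounds exists_gap)

theorem pd_exists {r : ℕ} (hr : 1 ≤ r) (c u : Fin r → ℝ) (F : Fin r → ℕ → ℝ → ℝ)
    (hSV : ∀ j, SV (c j) (F j)) (hcn : ∀ j, ∀ n : ℕ, c j ≠ n) (hv : ∀ j, 0 < c j + u j)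
    (hinj : Function.Injective (fun j => c j + u j)) (Q : ℕ) (hQc : ∀ j, c j < Q + 1) :
    ∃ g a₁ a₂ : ℝ, 0 < g ∧ 0 < a₁ ∧ a₁ ≤ a₂ ∧ ∀ ζ : ℝ, 0 < ζ → ζ ≤ g / 32 →
      ∀ᶠ N : ℝ in atTop, ∀ (α : Fin r → ℝ) (h : Fin r → ℤ) (q : ℕ),
      (∀ j, N ^ (u j - ζ) ≤ |α j| ∧ |α j| ≤ N ^ (u j + ζ)) → 1 ≤ q → (q : ℝ) ≤ N ^ ζ → h ≠ 0 →
      (∀ j, |(h j : ℝ)| ≤ N ^ ζ) → ∃ (j₀ : Fin r) (Φ σ τ : ℝ), (σ = 1 ∨ σ = -1) ∧
        (τ = 1 ∨ τ = -1) ∧ N ^ (c j₀ + u j₀ - 3 * ζ) ≤ Φ ∧ Φ ≤ N ^ (c j₀ + u j₀ + 3 * ζ) ∧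
        PD Q N Φ a₁ a₂ σ τ (GG F (fun j => (h j : ℝ) * α j / q) 0) := by
  classical
  set v : Fin r → ℝ := fun j => c j + u j with hvdef
  obtain ⟨g, hg0, hg1, hgv, hgap⟩ := exists_gap v hv
  choose a₁ a₂ T₁ σ τ ha₁ ha₁₂ hT₁ hσ hτ hHB using fun j => hb_exists (hSV j) (hcn j) Q (hQc j)
  have hne : (univ : Finset (Fin r)).Nonempty := ⟨⟨0, hr⟩, mem_univ _⟩
  set c₁ : ℝ := univ.inf' hne a₁ with hc₁def
  set c₂ : ℝ := univ.sup' hne a₂ with hc₂def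
  set T : ℝ := univ.sup' hne T₁ with hTdef
  have hc₁ : 0 < c₁ := (Finset.lt_inf'_iff _).mpr fun j _ => ha₁ j
  have hc₁a : ∀ j, c₁ ≤ a₁ j := fun j => Finset.inf'_le _ (mem_univ j)
  have hc₂a : ∀ j, a₂ j ≤ c₂ := fun j => Finset.le_sup' _ (mem_univ j)
  have hTa : ∀ j, T₁ j ≤ T := fun j => Finset.le_sup' _ (mem_univ j)
  have hc₂ : c₁ ≤ c₂ := (hc₁a ⟨0, hr⟩).trans ((ha₁₂ ⟨0, hr⟩).trans (hc₂a ⟨0, hr⟩))
  have hT : 1 ≤ T := (hT₁ ⟨0, hr⟩).trans (hTa ⟨0, hr⟩)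
  have hHB' : ∀ j, HB Q c₁ c₂ T (σ j) (τ j) (F j) := fun j =>
    (hHB j).mono (hc₁a j) (hc₂a j) (hTa j)
  have hc₂0 : 0 < c₂ := by linarith
  have hQ0 : (0 : ℝ) ≤ Q := Nat.cast_nonneg Q
  set κ₀ : ℝ := c₁ / (4 * (Q + 3) * c₂) with hκ₀
  have hκ₀0 : 0 < κ₀ := by positivity
  refine ⟨g, c₁ / 2, 2 * (Q + 3) * c₂, hg0, by positivity, by nlinarith, ?_⟩
  intro ζ hζ hζg
  have hpb : ∀ᶠ y in atTop, ∀ j, y ^ (c j - ζ) ≤ F j 0 y ∧ F j 0 y ≤ y ^ (c j + ζ) := by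
    rw [Filter.eventually_all]
    intro j
    exact power_bounds (hSV j) ζ hζ
  filter_upwards [hpb, eventually_ge_atTop T,
    (tendsto_rpow_atTop (show 0 < g / 2 by positivity)).eventually_ge_atTop (r / κ₀)]
    with N hFb hTN hgR
  intro α h q hα hq hqN hh hhN
  have hN1 : 1 ≤ N := hT.trans hTN
  have hN0 : 0 < N := by linarith
  have hq0 : (0 : ℝ) < q := by exact_mod_cast hq
  have hq1 : (1 : ℝ) ≤ q := by exact_mod_cast hq
  set θ : Fin r → ℝ := fun j => (h j : ℝ) * α j / q with hθ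
  have hup : ∀ j, |θ j| * F j 0 N ≤ N ^ (v j + 3 * ζ) := by
    intro j
    have h1 : |θ j| ≤ N ^ ζ * N ^ (u j + ζ) := by
      rw [hθ]
      simp only
      rw [abs_div, abs_mul, abs_of_pos hq0]
      calc |(h j : ℝ)| * |α j| / q ≤ |(h j : ℝ)| * |α j| := div_le_self (by positivity) hq1
        _ ≤ _ := mul_le_mul (hhN j) (hα j).2 (abs_nonneg _) (by positivity)
    calc |θ j| * F j 0 N ≤ (N ^ ζ * N ^ (u j + ζ)) * N ^ (c j + ζ) :=
          mul_le_mul h1 (hFb j).2 (le_trans (by positivity) (hFb j).1) (by positivity)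
      _ = _ := by
        rw [← Real.rpow_add hN0, ← Real.rpow_add hN0, hvdef]
        congr 1
        ring
  have hdn : ∀ j, h j ≠ 0 → N ^ (v j - 3 * ζ) ≤ |θ j| * F j 0 N := by
    intro j hj
    have h0 : (1 : ℝ) ≤ |(h j : ℝ)| := by
      have := Int.one_le_abs hj
      exact_mod_cast this
    have h1 : N ^ (-ζ) * N ^ (u j - ζ) ≤ |θ j| := by
      rw [hθ]
      simp only
      rw [abs_div, abs_mul, abs_of_pos hq0, Real.rpow_neg hN0.le]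
      calc (N ^ ζ)⁻¹ * N ^ (u j - ζ) ≤ (q : ℝ)⁻¹ * |α j| := by
            apply mul_le_mul _ (hα j).1 (by positivity) (by positivity)
            exact inv_anti₀ hq0 hqN
        _ = 1 * |α j| / q := by ring
        _ ≤ _ := by gcongr
    calc N ^ (v j - 3 * ζ) = N ^ (-ζ) * N ^ (u j - ζ) * N ^ (c j - ζ) := by
          rw [← Real.rpow_add hN0, ← Real.rpow_add hN0, hvdef]
          congr 1
          ring
      _ ≤ |θ j| * F j 0 N := mul_le_mul h1 (hFb j).1 (by positivity) (abs_nonneg _)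
  have hex : ∃ j, h j ≠ 0 := by
    by_contra hcon
    push Not at hcon
    exact hh (funext hcon)
  obtain ⟨j₀, hj₀, hmax⟩ := exists_max_image (univ.filter (fun j => h j ≠ 0)) v (by
    obtain ⟨j, hj⟩ := hex
    exact ⟨j, by simp [hj]⟩)
  have hj₀' : h j₀ ≠ 0 := by simpa using hj₀
  have hα₀ : 0 < |α j₀| := lt_of_lt_of_le (by positivity) (hα j₀).1
  have hθ₀ : θ j₀ ≠ 0 := by
    rw [hθ]
    simp only
    have h1 : (h j₀ : ℝ) ≠ 0 := by exact_mod_cast hj₀'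
    have h2 : α j₀ ≠ 0 := abs_pos.mp hα₀
    positivity
  set Φ : ℝ := |θ j₀| * F j₀ 0 N with hΦ
  have hΦlo := hdn j₀ hj₀'
  rw [← hΦ] at hΦlo
  have hΦ0 : 0 < Φ := lt_of_lt_of_le (by positivity) hΦlo
  have hdom : ∑ j ∈ univ.erase j₀, |θ j| * F j 0 N ≤ κ₀ * Φ := by
    have h1 : ∀ j ∈ univ.erase j₀, |θ j| * F j 0 N ≤ N ^ (v j₀ - g + 3 * ζ) := by
      intro j hj
      rw [mem_erase] at hj
      by_cases hj0 : h j = 0
      · have : θ j = 0 := by rw [hθ]; simp [hj0]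
        rw [this, abs_zero, zero_mul]
        positivity
      · have h2 := hmax j (by simp [hj0])
        have h3 : v j ≠ v j₀ := fun h4 => hj.1 (hinj h4)
        have h4 := hgap j j₀ (lt_of_le_of_ne h2 h3)
        refine (hup j).trans ?_
        exact Real.rpow_le_rpow_of_exponent_le hN1 (by linarith)
    calc ∑ j ∈ univ.erase j₀, |θ j| * F j 0 N
        ≤ ∑ _j ∈ univ.erase j₀, N ^ (v j₀ - g + 3 * ζ) := sum_le_sum h1
      _ = ((univ.erase j₀).card : ℝ) * N ^ (v j₀ - g + 3 * ζ) := by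
          rw [sum_const, nsmul_eq_mul]
      _ ≤ r * N ^ (v j₀ - g + 3 * ζ) := by
          gcongr
          have h2 := card_le_univ (univ.erase j₀)
          rwa [Fintype.card_fin] at h2
      _ ≤ r * N ^ (v j₀ - 3 * ζ - g / 2) := by
          apply mul_le_mul_of_nonneg_left _ (Nat.cast_nonneg r)
          exact Real.rpow_le_rpow_of_exponent_le hN1 (by linarith)
      _ = r * (N ^ (v j₀ - 3 * ζ) / N ^ (g / 2)) := by
          rw [Real.rpow_sub hN0]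
      _ ≤ r * (Φ / N ^ (g / 2)) := by gcongr
      _ ≤ (κ₀ * N ^ (g / 2)) * (Φ / N ^ (g / 2)) := by
          have h2 : (r : ℝ) ≤ κ₀ * N ^ (g / 2) := by
            rw [div_le_iff₀ hκ₀0] at hgR
            linarith
          gcongr
      _ = κ₀ * Φ := by field_simp
  obtain ⟨σ', τ', hσ', hτ', hPD⟩ := pd_sum hc₁ hc₂ hT hσ hτ hHB' θ 0 (by simp) j₀ hθ₀ N hTN
    (by rw [← hκ₀, ← hΦ]; exact hdom)
  exact ⟨j₀, Φ, σ', τ', hσ', hτ', hΦlo, hup j₀, hPD⟩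

end Pool.Agent.N542.PB
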