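import Pool.Agent.N542.PB.Bil
import Pool.Agent.N542.PB.PDx

set_option autoImplicit false
set_option maxHeartbeats 4000000

/-! The bilinear sums with phases `∑ θ j * F j (a * b)` and `∑ θ j * F j (a + b)`. -/

namespace Pool.Agent.N542.PB

open Finset Filter Topology
open Pool.Agent.H469R2.NK (e norm_e e_add)
open Pool.Agent.N542.PP (SV)
open Pool.Agent.W147.PS (ev_pow)
open Pool.Agent.N542.PQ (PD Blk vdc_all GG)

/-- the last step -/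
lemma finish (X a b Y w S C ε η₀ θ δ η : ℝ) (hX : 1 ≤ X) (ha : 0 < a) (hb : 0 < b) (hY : 0 < Y)
    (hC : 1 ≤ C) (hε : 0 < ε) (hθ1 : θ ≤ ε / 4) (hθ2 : θ ≤ η₀) (hδ : δ ≤ θ / 2) (hη : η ≤ θ / 8)
    (haX : X ^ (1 - δ) ≤ a) (hbX : X ^ ε ≤ b) (hw : w = b * X ^ (-(ε / 4)) / Y)
    (hbig : 3 + C ≤ X ^ (θ / 4)) (hS : 0 ≤ S)
    (h : S ^ 2 ≤ a * (b * ((2 * (Y * w) + 1) * X + b * (C * X ^ (1 - η₀))))) :
    S ≤ a * b * X ^ (-η) := by
  have hX0 : 0 < X := by linarith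
  have hYw : Y * w = b * X ^ (-(ε / 4)) := by rw [hw]; field_simp
  have h1 : 1 ≤ b * X ^ (-(ε / 4)) := by
    calc (1 : ℝ) ≤ X ^ (3 * ε / 4) := Real.one_le_rpow hX (by positivity)
      _ = X ^ ε * X ^ (-(ε / 4)) := by
        rw [← Real.rpow_add hX0]
        congr 1
        ring
      _ ≤ _ := by gcongr
  have h2 : X ^ (-(ε / 4)) ≤ X ^ (-θ) := Real.rpow_le_rpow_of_exponent_le hX (by linarith)
  have h3 : X ^ (1 - η₀) ≤ X * X ^ (-θ) := by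
    calc X ^ (1 - η₀) ≤ X ^ (1 - θ) := Real.rpow_le_rpow_of_exponent_le hX (by linarith)
      _ = _ := by rw [sub_eq_add_neg, Real.rpow_add hX0, Real.rpow_one]
  have h4 : X ≤ a * X ^ δ := by
    calc X = X ^ (1 - δ) * X ^ δ := by
          rw [← Real.rpow_add hX0]
          simp
      _ ≤ _ := by gcongr
  have h5 : S ^ 2 ≤ (a * b * X ^ (-η)) ^ 2 := by
    refine h.trans ?_
    rw [hYw]
    calc a * (b * ((2 * (b * X ^ (-(ε / 4))) + 1) * X + b * (C * X ^ (1 - η₀))))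
        ≤ a * (b * ((3 * (b * X ^ (-(ε / 4)))) * X + b * (C * X ^ (1 - η₀)))) := by
          gcongr
          linarith
      _ ≤ a * (b * ((3 * (b * X ^ (-θ))) * X + b * (C * (X * X ^ (-θ))))) := by gcongr
      _ = a * b ^ 2 * ((3 + C) * X ^ (-θ)) * X := by ring
      _ ≤ a * b ^ 2 * (X ^ (θ / 4) * X ^ (-θ)) * (a * X ^ δ) := by gcongr
      _ = (a * b) ^ 2 * (X ^ (θ / 4) * X ^ (-θ) * X ^ δ) := by ring
      _ = (a * b) ^ 2 * X ^ (θ / 4 + -θ + δ) := by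
          rw [← Real.rpow_add hX0, ← Real.rpow_add hX0]
      _ ≤ (a * b) ^ 2 * X ^ (-η + -η) := by
          apply mul_le_mul_of_nonneg_left _ (by positivity)
          exact Real.rpow_le_rpow_of_exponent_le hX (by linarith)
      _ = _ := by
          rw [Real.rpow_add hX0]
          ring
  exact le_of_sq_le_sq h5 (by positivity)

theorem bound_mul {r : ℕ} (hr : 1 ≤ r) (c u : Fin r → ℝ) (F : Fin r → ℕ → ℝ → ℝ)
    (hSV : ∀ j, SV (c j) (F j)) (hcn : ∀ j, ∀ n : ℕ, c j ≠ n) (hv : ∀ j, 0 < c j + u j)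
    (hinj : Function.Injective (fun j => c j + u j)) (D : ℕ) (ε : ℝ) (hε : 0 < ε)
    (hε1 : ε ≤ 1 / 2) :
    ∃ δ η : ℝ, 0 < δ ∧ 0 < η ∧ η ≤ 1 ∧ ∀ᶠ X : ℕ in atTop, ∀ Y : ℕ, 1 ≤ Y →
      (Y : ℝ) ≤ (X : ℝ) ^ (1 / ε) → ∀ A B : Finset ℕ, A ⊆ Ico X (2 * X) → B ⊆ Icc Y (2 * Y) →
      (X : ℝ) ^ (1 - δ) ≤ A.card → (X : ℝ) ^ ε ≤ B.card →
      (∀ j, (X : ℝ) ^ ε * Y ≤ B.card * ((X : ℝ) * Y) ^ (c j + u j)) →
      ∀ (α : Fin r → ℝ) (h : Fin r → ℤ) (q : ℕ),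
      (∀ j, ((X : ℝ) * Y) ^ (u j - δ) ≤ |α j| ∧ |α j| ≤ ((X : ℝ) * Y) ^ (u j + δ)) →
      1 ≤ q → (q : ℝ) ≤ (X : ℝ) ^ η → h ≠ 0 → (∀ j, |(h j : ℝ)| ≤ (X : ℝ) ^ η) →
      ∀ (v : ℕ → ℂ), (∀ m, ‖v m‖ ≤ 1) → ∀ (R : ℕ → Polynomial ℝ), (∀ l, (R l).natDegree ≤ D) →
      ‖∑ a ∈ A, v a * ∑ b ∈ B, e (∑ j, (h j : ℝ) * α j / q * F j 0 ((a : ℝ) * b) +
        (R b).eval (a : ℝ))‖ ≤ A.card * B.card * (X : ℝ) ^ (-η) := by
  classical
  set V : ℝ := ∑ j, |c j + u j| with hV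
  have hV0 : 0 ≤ V := sum_nonneg fun _ _ => abs_nonneg _
  have hvV : ∀ j, c j + u j ≤ V := fun j => (le_abs_self _).trans
    (single_le_sum (f := fun j => |c j + u j|) (fun _ _ => abs_nonneg _) (mem_univ j))
  set Cc : ℝ := ∑ j, |c j| with hCc
  have hcC : ∀ j, |c j| ≤ Cc := fun j =>
    single_le_sum (f := fun j => |c j|) (fun _ _ => abs_nonneg _) (mem_univ j)
  set K : ℝ := (1 + 1 / ε) * (V + 1) with hK
  set Q : ℕ := ⌈K⌉₊ + 1 + D + ⌈Cc⌉₊ with hQ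
  have hQc : ∀ j, c j < Q + 1 := by
    intro j
    have h1 := (le_abs_self (c j)).trans (hcC j)
    have h2 := Nat.le_ceil Cc
    have h3 : ((⌈Cc⌉₊ : ℕ) : ℝ) ≤ Q := by exact_mod_cast (by omega : ⌈Cc⌉₊ ≤ Q)
    linarith
  have hQK : K ≤ Q := (Nat.le_ceil K).trans (by exact_mod_cast (by omega : ⌈K⌉₊ ≤ Q))
  obtain ⟨g, a₁, a₂, hg, ha₁, ha₂, hpd⟩ := pd_exists hr c u F hSV hcn hv hinj Q hQc
  set ζ : ℝ := min (g / 32) (ε ^ 2 / 48) with hζ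
  have hζ0 : 0 < ζ := lt_min (by positivity) (by positivity)
  have hζ1 : ζ ≤ g / 32 := min_le_left _ _
  have hζ2 : ζ ≤ ε ^ 2 / 48 := min_le_right _ _
  have hζ3 : 3 * ζ ≤ 1 := by nlinarith
  have h3Q : (1 : ℝ) ≤ 2 * 3 ^ (Q + 1) := by
    have : (1 : ℝ) ≤ 3 ^ (Q + 1) := one_le_pow₀ (by norm_num)
    linarith
  obtain ⟨η₀, hη₀, hη₀1, C, hC, hblk⟩ := vdc_all Q (by omega) (a₁ / (2 * 3 ^ (Q + 1))) a₂ (ε / 4)
    (by positivity) ((div_le_self ha₁.le h3Q).trans ha₂) (by positivity) (by linarith)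
  set θ : ℝ := min (ε / 4) η₀ with hθ
  have hθ0 : 0 < θ := lt_min (by positivity) hη₀
  have hθ1 : θ ≤ ε / 4 := min_le_left _ _
  have hθ2 : θ ≤ η₀ := min_le_right _ _
  set δ : ℝ := min ζ (θ / 2) with hδ
  have hδ0 : 0 < δ := lt_min hζ0 (by positivity)
  have hδζ : δ ≤ ζ := min_le_left _ _
  set η : ℝ := min ζ (θ / 8) with hη
  have hη0 : 0 < η := lt_min hζ0 (by positivity)
  have hηζ : η ≤ ζ := min_le_left _ _
  refine ⟨δ, η, hδ0, hη0, by linarith, ?_⟩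
  obtain ⟨N₁, hN₁⟩ := eventually_atTop.mp (hpd ζ hζ0 hζ1)
  have e1 := tendsto_natCast_atTop_atTop (R := ℝ)
  filter_upwards [e1.eventually (eventually_ge_atTop N₁), eventually_ge_atTop 1,
    e1.eventually ((tendsto_rpow_atTop (show 0 < θ / 4 by positivity)).eventually_ge_atTop (3 + C))]
    with X hXN hX1 hXC
  intro Y hY hYX A B hA hB hAc hBc hBF α h q hα hq hqX hh hhX v hv' R hR
  have hX1' : (1 : ℝ) ≤ X := by exact_mod_cast hX1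
  have hX0 : (0 : ℝ) < X := by linarith
  have hY1' : (1 : ℝ) ≤ Y := by exact_mod_cast hY
  have hY0 : (0 : ℝ) < Y := by linarith
  set N : ℝ := (X : ℝ) * Y with hN
  have hXN' : (X : ℝ) ≤ N := by rw [hN]; nlinarith
  have hN1 : 1 ≤ N := hX1'.trans hXN'
  have hN0 : 0 < N := by linarith
  have hNX : N ≤ (X : ℝ) ^ (1 + 1 / ε) := by
    rw [Real.rpow_add hX0, Real.rpow_one, hN]
    gcongr
  have hB0 : (0 : ℝ) < B.card := lt_of_lt_of_le (by positivity) hBc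
  have hA0 : (0 : ℝ) < A.card := lt_of_lt_of_le (by positivity) hAc
  obtain ⟨j₀, Φ, σ, τ, hσ, hτ, hΦ1, hΦ2, hPD⟩ := hN₁ N (hXN.trans hXN') α h q
    (fun j => ⟨(Real.rpow_le_rpow_of_exponent_le hN1 (by linarith)).trans (hα j).1,
      (hα j).2.trans (Real.rpow_le_rpow_of_exponent_le hN1 (by linarith))⟩) hq
    (hqX.trans ((Real.rpow_le_rpow_of_exponent_le hX1' hηζ).trans
      (Real.rpow_le_rpow hX0.le hXN' hζ0.le))) hh
    (fun j => (hhX j).trans ((Real.rpow_le_rpow_of_exponent_le hX1' hηζ).trans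
      (Real.rpow_le_rpow hX0.le hXN' hζ0.le)))
  have hΦ0 : 0 < Φ := lt_of_lt_of_le (by positivity) hΦ1
  set w : ℝ := B.card * (X : ℝ) ^ (-(ε / 4)) / Y with hw
  have hcond : Φ ≤ (X : ℝ) ^ Q := by
    calc Φ ≤ N ^ (c j₀ + u j₀ + 3 * ζ) := hΦ2
      _ ≤ N ^ (V + 1) := Real.rpow_le_rpow_of_exponent_le hN1 (by linarith [hvV j₀])
      _ ≤ ((X : ℝ) ^ (1 + 1 / ε)) ^ (V + 1) := Real.rpow_le_rpow hN0.le hNX (by positivity)
      _ = (X : ℝ) ^ K := by rw [← Real.rpow_mul hX0.le]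
      _ ≤ (X : ℝ) ^ (Q : ℝ) := Real.rpow_le_rpow_of_exponent_le hX1' hQK
      _ = _ := Real.rpow_natCast _ _
  have hfar : (X : ℝ) ^ (ε / 4) ≤ Φ * w := by
    have h1 : (X : ℝ) ^ (-(ε / 8)) ≤ N ^ (-(3 * ζ)) := by
      calc (X : ℝ) ^ (-(ε / 8)) ≤ (X : ℝ) ^ ((1 + 1 / ε) * (-(3 * ζ))) := by
            apply Real.rpow_le_rpow_of_exponent_le hX1'
            have h2 : (1 + 1 / ε) * (3 * ζ) ≤ ε / 8 := by
              have h3 : 1 ≤ 1 / ε := by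
                rw [le_div_iff₀ hε]
                linarith
              calc (1 + 1 / ε) * (3 * ζ) ≤ (1 / ε + 1 / ε) * (3 * (ε ^ 2 / 48)) := by gcongr
                _ = ε / 8 := by field_simp; ring
            linarith
        _ = ((X : ℝ) ^ (1 + 1 / ε)) ^ (-(3 * ζ)) := by rw [← Real.rpow_mul hX0.le]
        _ ≤ _ := Real.rpow_le_rpow_of_nonpos hN0 hNX (by linarith)
    have h2 : (X : ℝ) ^ ε ≤ B.card * N ^ (c j₀ + u j₀) / Y := by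
      rw [le_div_iff₀ hY0]
      exact hBF j₀
    calc (X : ℝ) ^ (ε / 4) ≤ (X : ℝ) ^ (ε + -(ε / 4) + -(ε / 8)) :=
          Real.rpow_le_rpow_of_exponent_le hX1' (by linarith)
      _ = (X : ℝ) ^ ε * (X : ℝ) ^ (-(ε / 4)) * (X : ℝ) ^ (-(ε / 8)) := by
          rw [Real.rpow_add hX0, Real.rpow_add hX0]
      _ ≤ (B.card * N ^ (c j₀ + u j₀) / Y) * (X : ℝ) ^ (-(ε / 4)) * N ^ (-(3 * ζ)) := by gcongr
      _ = (N ^ (c j₀ + u j₀) * N ^ (-(3 * ζ))) * (B.card * (X : ℝ) ^ (-(ε / 4)) / Y) := by ring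
      _ = N ^ (c j₀ + u j₀ - 3 * ζ) * w := by
          rw [← Real.rpow_add hN0, sub_eq_add_neg]
      _ ≤ Φ * w := by
          apply mul_le_mul_of_nonneg_right hΦ1
          positivity
  have hmain := bil_mul X Y hPD hX1 hY hτ ha₁ ha₂ hΦ0 hC hblk w (by positivity) hcond hfar A B hA
    hB v hv' R (fun l => (hR l).trans (by omega))
  have hGG : ∀ t : ℝ, GG F (fun j => (h j : ℝ) * α j / q) 0 0 t =
      ∑ j, (h j : ℝ) * α j / q * F j 0 t := by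
    intro t
    rw [GG]
    simp
  simp only [hGG] at hmain
  exact finish X A.card B.card Y w _ C ε η₀ θ δ η hX1' hA0 hB0 hY0 hC hε hθ1 hθ2
    (min_le_right _ _) (min_le_right _ _) hAc hBc hw hXC (norm_nonneg _) hmain

theorem bound_add {r : ℕ} (hr : 1 ≤ r) (c u : Fin r → ℝ) (F : Fin r → ℕ → ℝ → ℝ)
    (hSV : ∀ j, SV (c j) (F j)) (hcn : ∀ j, ∀ n : ℕ, c j ≠ n) (hv : ∀ j, 0 < c j + u j)
    (hinj : Function.Injective (fun j => c j + u j)) (D : ℕ) (ε : ℝ) (hε : 0 < ε)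
    (hε1 : ε ≤ 1 / 2) :
    ∃ δ η : ℝ, 0 < δ ∧ 0 < η ∧ η ≤ 1 ∧ ∀ᶠ X : ℕ in atTop,
      ∀ A B : Finset ℕ, A ⊆ Ico X (2 * X) → B ⊆ Icc 0 (2 * X) →
      (X : ℝ) ^ (1 - δ) ≤ A.card → (X : ℝ) ^ ε ≤ B.card →
      (∀ j, (X : ℝ) ^ (1 + ε) ≤ B.card * (X : ℝ) ^ (c j + u j)) →
      ∀ (α : Fin r → ℝ) (h : Fin r → ℤ) (q : ℕ),
      (∀ j, (X : ℝ) ^ (u j - δ) ≤ |α j| ∧ |α j| ≤ (X : ℝ) ^ (u j + δ)) →
      1 ≤ q → (q : ℝ) ≤ (X : ℝ) ^ η → h ≠ 0 → (∀ j, |(h j : ℝ)| ≤ (X : ℝ) ^ η) →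
      ∀ (v : ℕ → ℂ), (∀ m, ‖v m‖ ≤ 1) → ∀ (R : ℕ → Polynomial ℝ), (∀ l, (R l).natDegree ≤ D) →
      ‖∑ a ∈ A, v a * ∑ b ∈ B, e (∑ j, (h j : ℝ) * α j / q * F j 0 ((a : ℝ) + b) +
        (R b).eval (a : ℝ))‖ ≤ A.card * B.card * (X : ℝ) ^ (-η) := by
  classical
  set V : ℝ := ∑ j, |c j + u j| with hV
  have hV0 : 0 ≤ V := sum_nonneg fun _ _ => abs_nonneg _
  have hvV : ∀ j, c j + u j ≤ V := fun j => (le_abs_self _).trans
    (single_le_sum (f := fun j => |c j + u j|) (fun _ _ => abs_nonneg _) (mem_univ j))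
  set Cc : ℝ := ∑ j, |c j| with hCc
  have hcC : ∀ j, |c j| ≤ Cc := fun j =>
    single_le_sum (f := fun j => |c j|) (fun _ _ => abs_nonneg _) (mem_univ j)
  set Q : ℕ := ⌈V + 2⌉₊ + 1 + D + ⌈Cc⌉₊ with hQ
  have hQc : ∀ j, c j < ((Q + 1 : ℕ) : ℝ) + 1 := by
    intro j
    have h1 := (le_abs_self (c j)).trans (hcC j)
    have h2 := Nat.le_ceil Cc
    have h3 : ((⌈Cc⌉₊ : ℕ) : ℝ) ≤ ((Q + 1 : ℕ) : ℝ) := by
      exact_mod_cast (by omega : ⌈Cc⌉₊ ≤ Q + 1)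
    linarith
  have hQK : V + 2 ≤ Q := (Nat.le_ceil _).trans (by exact_mod_cast (by omega : ⌈V + 2⌉₊ ≤ Q))
  obtain ⟨g, a₁, a₂, hg, ha₁, ha₂, hpd⟩ := pd_exists hr c u F hSV hcn hv hinj (Q + 1) hQc
  set ζ : ℝ := min (g / 32) (ε / 48) with hζ
  have hζ0 : 0 < ζ := lt_min (by positivity) (by positivity)
  have hζ1 : ζ ≤ g / 32 := min_le_left _ _
  have hζ2 : ζ ≤ ε / 48 := min_le_right _ _
  have hζ3 : 3 * ζ ≤ 1 := by nlinarith
  have h3Q : (1 : ℝ) ≤ 4 ^ (Q + 2) := one_le_pow₀ (by norm_num)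
  obtain ⟨η₀, hη₀, hη₀1, C, hC, hblk⟩ := vdc_all Q (by omega) (a₁ / 4 ^ (Q + 2)) a₂ (ε / 4)
    (by positivity) ((div_le_self ha₁.le h3Q).trans ha₂) (by positivity) (by linarith)
  set θ : ℝ := min (ε / 4) η₀ with hθ
  have hθ0 : 0 < θ := lt_min (by positivity) hη₀
  have hθ1 : θ ≤ ε / 4 := min_le_left _ _
  have hθ2 : θ ≤ η₀ := min_le_right _ _
  set δ : ℝ := min ζ (θ / 2) with hδ
  have hδ0 : 0 < δ := lt_min hζ0 (by positivity)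
  have hδζ : δ ≤ ζ := min_le_left _ _
  set η : ℝ := min ζ (θ / 8) with hη
  have hη0 : 0 < η := lt_min hζ0 (by positivity)
  have hηζ : η ≤ ζ := min_le_left _ _
  refine ⟨δ, η, hδ0, hη0, by linarith, ?_⟩
  obtain ⟨N₁, hN₁⟩ := eventually_atTop.mp (hpd ζ hζ0 hζ1)
  have e1 := tendsto_natCast_atTop_atTop (R := ℝ)
  filter_upwards [e1.eventually (eventually_ge_atTop N₁), eventually_ge_atTop 2,
    e1.eventually ((tendsto_rpow_atTop (show 0 < θ / 4 by positivity)).eventually_ge_atTop (3 + C))]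
    with X hXN hX2 hXC
  intro A B hA hB hAc hBc hBF α h q hα hq hqX hh hhX v hv' R hR
  have hX2' : (2 : ℝ) ≤ X := by exact_mod_cast hX2
  have hX1' : (1 : ℝ) ≤ X := by linarith
  have hX0 : (0 : ℝ) < X := by linarith
  have hB0 : (0 : ℝ) < B.card := lt_of_lt_of_le (by positivity) hBc
  have hA0 : (0 : ℝ) < A.card := lt_of_lt_of_le (by positivity) hAc
  obtain ⟨j₀, Φ, σ, τ, hσ, hτ, hΦ1, hΦ2, hPD⟩ := hN₁ X hXN α h q
    (fun j => ⟨(Real.rpow_le_rpow_of_exponent_le hX1' (by linarith)).trans (hα j).1,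
      (hα j).2.trans (Real.rpow_le_rpow_of_exponent_le hX1' (by linarith))⟩) hq
    (hqX.trans (Real.rpow_le_rpow_of_exponent_le hX1' hηζ)) hh
    (fun j => (hhX j).trans (Real.rpow_le_rpow_of_exponent_le hX1' hηζ))
  have hΦ0 : 0 < Φ := lt_of_lt_of_le (by positivity) hΦ1
  set w : ℝ := B.card * (X : ℝ) ^ (-(ε / 4)) / X with hw
  have hcond : 2 * Φ ≤ (X : ℝ) ^ Q := by
    calc 2 * Φ ≤ (X : ℝ) ^ (1 : ℝ) * (X : ℝ) ^ (c j₀ + u j₀ + 3 * ζ) := by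
          rw [Real.rpow_one]
          gcongr
      _ = (X : ℝ) ^ (1 + (c j₀ + u j₀ + 3 * ζ)) := by rw [← Real.rpow_add hX0]
      _ ≤ (X : ℝ) ^ (Q : ℝ) := Real.rpow_le_rpow_of_exponent_le hX1' (by linarith [hvV j₀])
      _ = _ := Real.rpow_natCast _ _
  have hfar : (X : ℝ) ^ (ε / 4) ≤ Φ * w := by
    have h2 : (X : ℝ) ^ ε ≤ B.card * (X : ℝ) ^ (c j₀ + u j₀) / X := by
      rw [le_div_iff₀ hX0]
      refine le_trans (le_of_eq ?_) (hBF j₀)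
      rw [add_comm, Real.rpow_add hX0, Real.rpow_one]
    calc (X : ℝ) ^ (ε / 4) ≤ (X : ℝ) ^ (ε + -(ε / 4) + -(3 * ζ)) :=
          Real.rpow_le_rpow_of_exponent_le hX1' (by linarith)
      _ = (X : ℝ) ^ ε * (X : ℝ) ^ (-(ε / 4)) * (X : ℝ) ^ (-(3 * ζ)) := by
          rw [Real.rpow_add hX0, Real.rpow_add hX0]
      _ ≤ (B.card * (X : ℝ) ^ (c j₀ + u j₀) / X) * (X : ℝ) ^ (-(ε / 4)) *
          (X : ℝ) ^ (-(3 * ζ)) := by gcongr
      _ = ((X : ℝ) ^ (c j₀ + u j₀) * (X : ℝ) ^ (-(3 * ζ))) *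
          (B.card * (X : ℝ) ^ (-(ε / 4)) / X) := by ring
      _ = (X : ℝ) ^ (c j₀ + u j₀ - 3 * ζ) * w := by
          rw [← Real.rpow_add hX0, sub_eq_add_neg]
      _ ≤ Φ * w := by
          apply mul_le_mul_of_nonneg_right hΦ1
          positivity
  have hmain := bil_add X hPD (by omega) hσ ha₁ ha₂ hΦ0 hC hblk w (by positivity) hcond hfar A B hA
    hB v hv' R (fun l => (hR l).trans (by omega))
  have hGG : ∀ t : ℝ, GG F (fun j => (h j : ℝ) * α j / q) 0 0 t =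
      ∑ j, (h j : ℝ) * α j / q * F j 0 t := by
    intro t
    rw [GG]
    simp
  simp only [hGG] at hmain
  exact finish X A.card B.card X w _ C ε η₀ θ δ η hX1' hA0 hB0 hX0 hC hε hθ1 hθ2
    (min_le_right _ _) (min_le_right _ _) hAc hBc hw hXC (norm_nonneg _) hmain

end Pool.Agent.N542.PB
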