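import Pool.Agent.Y961.JR.ScaledJ
import Pool.Agent.W147.PS.Scale

set_option autoImplicit false
set_option maxHeartbeats 4000000

/-! From small exponential sums to many members in record gaps. -/

namespace Pool.Agent.N542.PB

open Finset Filter Topology
open Pool.Agent.H469R2.NK (e norm_e e_add)
open Pool.Agent.W147.PS (ff ev_pow)
open Pool.Agent.Y961.JR (crit_scaledJ)

theorem many (r : ℕ) (hr : 1 ≤ r) (η : ℝ) (hη : 0 < η) (hη1 : η ≤ 1) :
    ∃ κ : ℝ, 0 < κ ∧ ∀ᶠ Z : ℝ in atTop, ∀ (ι : Type) (s : Finset ι) (x : ι → Fin r → ℝ),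
      s.Nonempty → (∀ i ∈ s, ∀ j, Z ^ η ≤ x i j) →
      (∀ q : ℕ, 1 ≤ q → (q : ℝ) ≤ Z ^ η → ∀ h : Fin r → ℤ, h ≠ 0 → (∀ j, |(h j : ℝ)| ≤ Z ^ η) →
        ‖∑ i ∈ s, e (∑ j, (h j : ℝ) * (x i j / q))‖ ≤ s.card * Z ^ (-η)) →
      ∃ G ⊆ s, (s.card : ℝ) * Z ^ (-η) ≤ (G.card : ℝ) ∧
        ∀ i ∈ G, ∀ j, ∀ q : ℕ, q.Prime → κ * ff Z < |(q : ℝ) - x i j| := by
  classical
  obtain ⟨κ, hκ, hcrit⟩ := crit_scaledJ r hr (η / 2) (by positivity) (by linarith)
  refine ⟨κ, hκ, ?_⟩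
  filter_upwards [hcrit, eventually_ge_atTop (1 : ℝ), ev_pow (-η) (-(η / 2)) 4 (by linarith),
    ev_pow (-(η / 2)) 0 4 (by linarith)] with Z hcr hZ1 hp1 hp2
  rw [Real.rpow_zero] at hp2
  intro ι s x hs hsize hsum
  have hZ0 : 0 < Z := by linarith
  have hspos : (0 : ℝ) < s.card := by exact_mod_cast Finset.card_pos.mpr hs
  set G : Finset ι := s.filter (fun i => ∀ j, ∀ q : ℕ, q.Prime → κ * ff Z < |(q : ℝ) - x i j|)
    with hG
  have hGs : G ⊆ s := filter_subset _ _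
  have hmono : Z ^ (η / 2) ≤ Z ^ η := Real.rpow_le_rpow_of_exponent_le hZ1 (by linarith)
  have hkey : (s.card : ℝ) * Z ^ (-(η / 2)) / 2 ≤ G.card := by
    by_contra hlt
    rw [not_le] at hlt
    set t : Finset ι := s \ G with ht
    have htcard : (t.card : ℝ) = s.card - G.card := by
      rw [ht, card_sdiff_of_subset hGs, Nat.cast_sub (card_le_card hGs)]
    have htbig : 3 / 4 * (s.card : ℝ) ≤ t.card := by
      rw [htcard]
      nlinarith
    obtain ⟨i, hi, hi2⟩ := hcr ι t x (by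
        rw [← Finset.card_pos]
        have : (0 : ℝ) < t.card := by linarith
        exact_mod_cast this) (by
        intro i hi j
        exact hmono.trans (hsize i (Finset.mem_sdiff.mp hi).1 j)) (by
        intro q hq hqZ h hh hhZ
        have h1 := hsum q hq (hqZ.trans hmono) h hh (fun j => (hhZ j).trans hmono)
        have h2 : ∑ i ∈ t, e (∑ j, (h j : ℝ) * (x i j / q)) =
            ∑ i ∈ s, e (∑ j, (h j : ℝ) * (x i j / q)) -
            ∑ i ∈ G, e (∑ j, (h j : ℝ) * (x i j / q)) := by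
          rw [ht, ← sum_sdiff hGs]
          ring
        rw [h2]
        have h3 : ‖∑ i ∈ G, e (∑ j, (h j : ℝ) * (x i j / q))‖ ≤ G.card := by
          refine (norm_sum_le _ _).trans ?_
          simp only [norm_e, sum_const, nsmul_eq_mul, mul_one]
          exact le_rfl
        have h4 : 3 / 4 * (s.card : ℝ) * Z ^ (-(η / 2)) ≤ t.card * Z ^ (-(η / 2)) := by gcongr
        calc _ ≤ _ := norm_sub_le _ _
          _ ≤ s.card * Z ^ (-η) + G.card := add_le_add h1 h3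
          _ ≤ _ := by nlinarith)
    rw [ht] at hi
    have hi3 := Finset.mem_sdiff.mp hi
    exact hi3.2 (Finset.mem_filter.mpr ⟨hi3.1, hi2⟩)
  refine ⟨G, hGs, ?_, ?_⟩
  · nlinarith
  · intro i hi
    rw [hG, mem_filter] at hi
    exact hi.2

end Pool.Agent.N542.PB
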