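import Mathlib

set_option autoImplicit false
set_option maxHeartbeats 4000000

/-! Generalised polynomials are smoothly varying. -/

namespace Pool.Agent.N542.PB

open Finset Filter Topology

/-- derivatives of a family -/
lemma iteratedDeriv_family (f : ℝ → ℝ) (F : ℕ → ℝ → ℝ) (h0 : ∀ t, 0 < t → f t = F 0 t)
    (hF : ∀ j, ∀ t, 0 < t → HasDerivAt (F j) (F (j + 1) t) t) :
    ∀ j, ∀ t, 0 < t → iteratedDeriv j f t = F j t := by
  intro j
  induction j with
  | zero =>
    intro t ht
    rw [iteratedDeriv_zero]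
    exact h0 t ht
  | succ j ih =>
    intro t ht
    rw [iteratedDeriv_succ]
    have h1 : iteratedDeriv j f =ᶠ[𝓝 t] F j := by
      filter_upwards [eventually_gt_nhds ht] with y hy
      exact ih y hy
    rw [h1.deriv_eq]
    exact (hF j t ht).deriv

lemma hasDerivAt_power (b : ℝ) (j : ℕ) (t : ℝ) (ht : 0 < t) :
    HasDerivAt (fun t : ℝ => (∏ i ∈ range j, (b - i)) * t ^ (b - j))
      ((∏ i ∈ range (j + 1), (b - i)) * t ^ (b - (j + 1 : ℕ))) t := by
  have h := (Real.hasDerivAt_rpow_const (x := t) (p := b - j) (Or.inl ht.ne')).const_mul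
    (∏ i ∈ range j, (b - i))
  refine h.congr_deriv ?_
  rw [prod_range_succ]
  push_cast
  rw [show b - (j : ℝ) - 1 = b - (j + 1) by ring]
  ring

/-- `t ^ c` plus a combination of lower real powers is smoothly varying with index `c`. -/
theorem genPoly_sv (c : ℝ) (n : ℕ) (a b : Fin n → ℝ) (hb : ∀ i, b i < c) :
    (∀ᶠ t in atTop, 0 < (fun t : ℝ => t ^ c + ∑ i, a i * t ^ b i) t) ∧
    (∀ j : ℕ, ∀ᶠ t in atTop, DifferentiableAt ℝ
      (iteratedDeriv j (fun t : ℝ => t ^ c + ∑ i, a i * t ^ b i)) t) ∧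
    ∀ j : ℕ, Tendsto (fun t => t ^ j * iteratedDeriv j (fun t : ℝ => t ^ c + ∑ i, a i * t ^ b i) t /
      (fun t : ℝ => t ^ c + ∑ i, a i * t ^ b i) t) atTop (𝓝 (∏ i ∈ range j, (c - i))) := by
  set f : ℝ → ℝ := fun t => t ^ c + ∑ i, a i * t ^ b i with hf
  set F : ℕ → ℝ → ℝ := fun j t => (∏ i ∈ range j, (c - i)) * t ^ (c - j) +
    ∑ i, a i * ((∏ k ∈ range j, (b i - k)) * t ^ (b i - j)) with hFdef
  have h0 : ∀ t, 0 < t → f t = F 0 t := by
    intro t _
    simp [hf, hFdef]
  have hF : ∀ j, ∀ t, 0 < t → HasDerivAt (F j) (F (j + 1) t) t := by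
    intro j t ht
    refine (hasDerivAt_power c j t ht).add ?_
    have h1 : ∀ i ∈ (univ : Finset (Fin n)), HasDerivAt
        (fun t : ℝ => a i * ((∏ k ∈ range j, (b i - k)) * t ^ (b i - j)))
        (a i * ((∏ k ∈ range (j + 1), (b i - k)) * t ^ (b i - (j + 1 : ℕ)))) t :=
      fun i _ => (hasDerivAt_power (b i) j t ht).const_mul (a i)
    exact HasDerivAt.fun_sum h1
  have hit := iteratedDeriv_family f F h0 hF
  -- the quotients `t ^ j F j t / t ^ c`
  have hlim : ∀ j : ℕ, Tendsto (fun t => t ^ j * F j t / t ^ c) atTop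
      (𝓝 (∏ i ∈ range j, (c - i))) := by
    intro j
    have h1 : Tendsto (fun t : ℝ => (∏ i ∈ range j, (c - (i : ℝ))) +
        ∑ i, a i * ((∏ k ∈ range j, (b i - k)) * t ^ (-(c - b i)))) atTop
        (𝓝 ((∏ i ∈ range j, (c - (i : ℝ))) + ∑ i : Fin n, a i * ((∏ k ∈ range j, (b i - k)) * 0))) := by
      apply tendsto_const_nhds.add
      apply tendsto_finsetSum
      intro i _
      apply Tendsto.const_mul
      apply Tendsto.const_mul
      exact tendsto_rpow_neg_atTop (by linarith [hb i])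
    simp only [mul_zero, sum_const_zero, add_zero] at h1
    refine h1.congr' ?_
    filter_upwards [eventually_gt_atTop 0] with t ht
    have hp : ∀ b : ℝ, t ^ j * t ^ (b - j) / t ^ c = t ^ (-(c - b)) := by
      intro b
      rw [← Real.rpow_natCast, ← Real.rpow_add ht, ← Real.rpow_sub ht]
      congr 1
      ring
    have h2 : t ^ j * F j t / t ^ c = (∏ i ∈ range j, (c - (i : ℝ))) * (t ^ j * t ^ (c - j) / t ^ c) +
        ∑ i, a i * ((∏ k ∈ range j, (b i - k)) * (t ^ j * t ^ (b i - j) / t ^ c)) := by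
      simp only [hFdef]
      rw [mul_add, add_div, mul_sum, sum_div]
      congr 1
      · ring
      · refine sum_congr rfl fun i _ => ?_
        ring
    rw [h2, hp c, sub_self, neg_zero, Real.rpow_zero, mul_one]
    congr 1
    refine sum_congr rfl fun i _ => ?_
    rw [hp (b i)]
  have hl0 := hlim 0
  simp only [pow_zero, one_mul, range_zero, prod_empty] at hl0
  have hpos : ∀ᶠ t in atTop, 0 < f t := by
    filter_upwards [hl0.eventually_const_lt (show (0 : ℝ) < 1 by norm_num),
      eventually_gt_atTop 0] with t h1 ht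
    rw [h0 t ht]
    have h2 : 0 < t ^ c := by positivity
    exact (div_pos_iff_of_pos_right h2).mp h1
  refine ⟨hpos, ?_, ?_⟩
  · intro j
    filter_upwards [eventually_gt_atTop 0] with t ht
    have h1 : iteratedDeriv j f =ᶠ[𝓝 t] F j := by
      filter_upwards [eventually_gt_nhds ht] with y hy
      exact hit j y hy
    exact ((hF j t ht).congr_of_eventuallyEq h1).differentiableAt
  · intro j
    have h1 := (hlim j).div hl0 one_ne_zero
    rw [div_one] at h1
    refine h1.congr' ?_
    filter_upwards [eventually_gt_atTop 0, hpos] with t ht hft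
    have h2 : 0 < t ^ c := by positivity
    rw [hit j t ht, Pi.div_apply, ← h0 t ht]
    field_simp

end Pool.Agent.N542.PB
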