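import Pool.Agent.N542.PB.Bound
import Pool.Agent.N542.PB.Crit

set_option autoImplicit false
set_option maxHeartbeats 4000000

/-! Record prime-free neighbourhoods around the values on arbitrary sets. -/

namespace Pool.Agent.N542.PB

open Finset Filter Topology
open Pool.Agent.H469R2.NK (e norm_e e_add)
open Pool.Agent.N542.PP (SV)
open Pool.Agent.W147.PS (ff ev_pow)

/-- splitting the phase -/
lemma split {r : ℕ} (A B : Finset ℕ) (f : Fin r → ℕ → ℕ → ℝ) (α : Fin r → ℝ) (h : Fin r → ℤ)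
    (q : ℕ) (w : Fin r → ℕ → ℝ) (P : Fin r → ℕ → Polynomial ℝ) :
    ∑ i ∈ A ×ˢ B, e (∑ j, (h j : ℝ) * ((α j * f j i.1 i.2 + w j i.1 +
      (P j i.2).eval (i.1 : ℝ)) / q)) =
    ∑ a ∈ A, e (∑ j, (h j : ℝ) * w j a / q) * ∑ b ∈ B, e (∑ j, (h j : ℝ) * α j / q * f j a b +
      (∑ j, Polynomial.C ((h j : ℝ) / q) * P j b).eval (a : ℝ)) := by
  rw [sum_product]
  refine sum_congr rfl fun a _ => ?_
  rw [mul_sum]
  refine sum_congr rfl fun b _ => ?_
  rw [← e_add]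
  congr 1
  rw [Polynomial.eval_finset_sum, ← sum_add_distrib, ← sum_add_distrib]
  refine sum_congr rfl fun j _ => ?_
  rw [Polynomial.eval_mul, Polynomial.eval_C]
  ring

lemma degP {r : ℕ} (D : ℕ) (h : Fin r → ℤ) (q : ℕ) (P : Fin r → ℕ → Polynomial ℝ)
    (hP : ∀ j b, (P j b).natDegree ≤ D) (b : ℕ) :
    (∑ j, Polynomial.C ((h j : ℝ) / q) * P j b).natDegree ≤ D :=
  Polynomial.natDegree_sum_le_of_forall_le _ _ (fun j _ =>
    (Polynomial.natDegree_C_mul_le _ _).trans (hP j b))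

theorem sets {r : ℕ} (hr : 1 ≤ r) (c u : Fin r → ℝ) (F : Fin r → ℕ → ℝ → ℝ)
    (hSV : ∀ j, SV (c j) (F j)) (hcn : ∀ j, ∀ n : ℕ, c j ≠ n) (hv : ∀ j, 0 < c j + u j)
    (hinj : Function.Injective (fun j => c j + u j)) (D : ℕ) (ε : ℝ) (hε : 0 < ε)
    (hε1 : ε ≤ 1 / 2) :
    ∃ κ δ : ℝ, 0 < κ ∧ 0 < δ ∧ ∀ᶠ X : ℕ in atTop,
      ∀ (A B : Finset ℕ) (α : Fin r → ℝ) (w : Fin r → ℕ → ℝ) (P : Fin r → ℕ → Polynomial ℝ),
      A ⊆ Ico X (2 * X) → (X : ℝ) ^ (1 - δ) ≤ A.card → (X : ℝ) ^ ε ≤ B.card →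
      (∀ j b, (P j b).natDegree ≤ D) →
      (∀ Y : ℕ, 1 ≤ Y → (Y : ℝ) ≤ (X : ℝ) ^ (1 / ε) → B ⊆ Icc Y (2 * Y) →
        (∀ j, (X : ℝ) ^ ε * Y ≤ B.card * ((X : ℝ) * Y) ^ (c j + u j)) →
        (∀ j, ((X : ℝ) * Y) ^ (u j - δ) ≤ |α j| ∧ |α j| ≤ ((X : ℝ) * Y) ^ (u j + δ)) →
        (∀ a ∈ A, ∀ b ∈ B, ∀ j, (X : ℝ) ^ ε ≤ α j * F j 0 ((a : ℝ) * b) + w j a +
          (P j b).eval (a : ℝ)) →
        ∃ G ⊆ A ×ˢ B, (A.card : ℝ) * B.card * (X : ℝ) ^ (-ε) ≤ (G.card : ℝ) ∧ ∀ i ∈ G, ∀ j,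
          ∀ q : ℕ, q.Prime → κ * ff X < |(q : ℝ) - (α j * F j 0 ((i.1 : ℝ) * i.2) + w j i.1 +
            (P j i.2).eval (i.1 : ℝ))|) ∧
      (B ⊆ Icc 0 (2 * X) →
        (∀ j, (X : ℝ) ^ (1 + ε) ≤ B.card * (X : ℝ) ^ (c j + u j)) →
        (∀ j, (X : ℝ) ^ (u j - δ) ≤ |α j| ∧ |α j| ≤ (X : ℝ) ^ (u j + δ)) →
        (∀ a ∈ A, ∀ b ∈ B, ∀ j, (X : ℝ) ^ ε ≤ α j * F j 0 ((a : ℝ) + b) + w j a +
          (P j b).eval (a : ℝ)) →
        ∃ G ⊆ A ×ˢ B, (A.card : ℝ) * B.card * (X : ℝ) ^ (-ε) ≤ (G.card : ℝ) ∧ ∀ i ∈ G, ∀ j,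
          ∀ q : ℕ, q.Prime → κ * ff X < |(q : ℝ) - (α j * F j 0 ((i.1 : ℝ) + i.2) + w j i.1 +
            (P j i.2).eval (i.1 : ℝ))|) := by
  classical
  obtain ⟨δ₁, η₁, d1, d2, d3, hmul⟩ := bound_mul hr c u F hSV hcn hv hinj D ε hε hε1
  obtain ⟨δ₂, η₂, d4, d5, d6, hadd⟩ := bound_add hr c u F hSV hcn hv hinj D ε hε hε1
  set δ : ℝ := min δ₁ δ₂ with hδ
  have hδ0 : 0 < δ := lt_min d1 d4
  have hδ1 : δ ≤ δ₁ := min_le_left _ _
  have hδ2 : δ ≤ δ₂ := min_le_right _ _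
  set η : ℝ := min (min η₁ η₂) ε with hη
  have hη0 : 0 < η := lt_min (lt_min d2 d5) hε
  have hη1 : η ≤ η₁ := (min_le_left _ _).trans (min_le_left _ _)
  have hη2 : η ≤ η₂ := (min_le_left _ _).trans (min_le_right _ _)
  have hηε : η ≤ ε := min_le_right _ _
  obtain ⟨κ, hκ, hmany⟩ := many r hr η hη0 (by linarith)
  refine ⟨κ, δ, hκ, hδ0, ?_⟩
  have e1 := tendsto_natCast_atTop_atTop (R := ℝ)
  filter_upwards [hmul, hadd, e1.eventually hmany, eventually_ge_atTop 1] with X hmul hadd hmany hX1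
  have hX1' : (1 : ℝ) ≤ X := by exact_mod_cast hX1
  have hX0 : (0 : ℝ) < X := by linarith
  have mono : ∀ x y : ℝ, x ≤ y → (X : ℝ) ^ x ≤ (X : ℝ) ^ y := fun x y h =>
    Real.rpow_le_rpow_of_exponent_le hX1' h
  intro A B α w P hA hAc hBc hP
  have hA0 : (0 : ℝ) < A.card := lt_of_lt_of_le (by positivity) hAc
  have hB0 : (0 : ℝ) < B.card := lt_of_lt_of_le (by positivity) hBc
  have hne : (A ×ˢ B).Nonempty := by
    rw [← Finset.card_pos, card_product]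
    have h1 : 0 < A.card := by exact_mod_cast hA0
    have h2 : 0 < B.card := by exact_mod_cast hB0
    positivity
  have hcard : (((A ×ˢ B).card : ℕ) : ℝ) = A.card * B.card := by
    rw [card_product]
    push_cast
    rfl
  constructor
  · intro Y hY hYX hB hBF hα hsize
    set N : ℝ := (X : ℝ) * Y with hN
    have hY1' : (1 : ℝ) ≤ Y := by exact_mod_cast hY
    have hN1 : 1 ≤ N := by rw [hN]; nlinarith
    obtain ⟨G, hG1, hG2, hG3⟩ := hmany (ℕ × ℕ) (A ×ˢ B) (fun i j => α j *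
      F j 0 ((i.1 : ℝ) * i.2) + w j i.1 + (P j i.2).eval (i.1 : ℝ)) hne (by
        intro i hi j
        rw [mem_product] at hi
        exact (mono _ _ hηε).trans (hsize i.1 hi.1 i.2 hi.2 j)) (by
        intro q hq hqX h hh hhX
        rw [split A B (fun j a b => F j 0 ((a : ℝ) * b)) α h q w P, hcard]
        have h1 := hmul Y hY hYX A B hA hB ((mono _ _ (by linarith)).trans hAc) hBc hBF α h q
          (fun j => ⟨(Real.rpow_le_rpow_of_exponent_le hN1 (by linarith)).trans (hα j).1,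
            (hα j).2.trans (Real.rpow_le_rpow_of_exponent_le hN1 (by linarith))⟩) hq
          (hqX.trans (mono _ _ hη1)) hh (fun j => (hhX j).trans (mono _ _ hη1))
          (fun a => e (∑ j, (h j : ℝ) * w j a / q)) (fun m => (norm_e _).le)
          (fun b => ∑ j, Polynomial.C ((h j : ℝ) / q) * P j b) (degP D h q P hP)
        exact h1.trans (mul_le_mul_of_nonneg_left (mono _ _ (by linarith)) (by positivity)))
    refine ⟨G, hG1, ?_, hG3⟩
    rw [hcard] at hG2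
    exact (mul_le_mul_of_nonneg_left (mono _ _ (by linarith)) (by positivity)).trans hG2
  · intro hB hBF hα hsize
    obtain ⟨G, hG1, hG2, hG3⟩ := hmany (ℕ × ℕ) (A ×ˢ B) (fun i j => α j *
      F j 0 ((i.1 : ℝ) + i.2) + w j i.1 + (P j i.2).eval (i.1 : ℝ)) hne (by
        intro i hi j
        rw [mem_product] at hi
        exact (mono _ _ hηε).trans (hsize i.1 hi.1 i.2 hi.2 j)) (by
        intro q hq hqX h hh hhX
        rw [split A B (fun j a b => F j 0 ((a : ℝ) + b)) α h q w P, hcard]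
        have h1 := hadd A B hA hB ((mono _ _ (by linarith)).trans hAc) hBc hBF α h q
          (fun j => ⟨(Real.rpow_le_rpow_of_exponent_le hX1' (by linarith)).trans (hα j).1,
            (hα j).2.trans (Real.rpow_le_rpow_of_exponent_le hX1' (by linarith))⟩) hq
          (hqX.trans (mono _ _ hη2)) hh (fun j => (hhX j).trans (mono _ _ hη2))
          (fun a => e (∑ j, (h j : ℝ) * w j a / q)) (fun m => (norm_e _).le)
          (fun b => ∑ j, Polynomial.C ((h j : ℝ) / q) * P j b) (degP D h q P hP)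
        exact h1.trans (mul_le_mul_of_nonneg_left (mono _ _ (by linarith)) (by positivity)))
    refine ⟨G, hG1, ?_, hG3⟩
    rw [hcard] at hG2
    exact (mul_le_mul_of_nonneg_left (mono _ _ (by linarith)) (by positivity)).trans hG2

end Pool.Agent.N542.PB
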